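import Pool.Agent.H6.AK.Stmts

/-!
# NOC: there is no colouring from the lists (MP_4e8966_co, disproof)
-/

set_option autoImplicit false

namespace Pool.Agent.H49.AK

open Pool.Agent.H6.AK

theorem NOC_thm (hLOC : LOCStmt) : NOCStmt := by
  classical
  intro m N r k q u la lb hr hu hm hk hla hlb hf
  obtain ⟨f, hf1, hf2⟩ := hf
  have key : ∀ v : Vx m N, ∃ i : Fin m, (i : ℕ) = f v ∧
      i ∈ (if v.1 = true then la v.2.1 v.2.2 else lb v.2.2) := by
    intro v
    have h := hf1 v
    unfold lst at h
    rw [Finset.mem_map] at h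
    obtain ⟨i, hi, hiv⟩ := h
    exact ⟨i, hiv, hi⟩
  choose g hg1 hg2 using key
  let SA : (Fin m → Bool) → Finset (Fin m) := fun x => Finset.univ.image fun t => g (true, x, t)
  let SB : (Fin m → Bool) → Finset (Fin m) := fun x => Finset.univ.image fun t => g (false, x, t)
  have hSA : ∀ x t, g (true, x, t) ∈ SA x := fun x t =>
    Finset.mem_image.2 ⟨t, Finset.mem_univ t, rfl⟩
  have hSB : ∀ x t, g (false, x, t) ∈ SB x := fun x t =>
    Finset.mem_image.2 ⟨t, Finset.mem_univ t, rfl⟩
  have hdis : ∀ x y, hammingDist x y ≤ r → Disjoint (SA x) (SB y) := by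
    intro x y hxy
    rw [Finset.disjoint_left]
    intro i hi hi'
    obtain ⟨t, -, ht⟩ := Finset.mem_image.1 hi
    obtain ⟨t', -, ht'⟩ := Finset.mem_image.1 hi'
    have hadj : (gr m N r).Adj (true, x, t) (false, y, t') := by
      refine ⟨?_, hxy⟩
      intro h
      cases h
    apply hf2 _ _ hadj
    rw [← hg1, ← hg1, ht, ht']
  obtain ⟨x, hx⟩ := hLOC m r SA SB u hr hu hdis hm
  have hx' : (SA x ∩ Z x).card + (SB x \ Z x).card ≤ k := by
    have h : (((SA x ∩ Z x).card + (SB x \ Z x).card : ℕ) : ℝ) ≤ (k : ℝ) := by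
      push_cast
      exact hx.trans hk
    exact_mod_cast h
  by_cases hq : q * k ≤ (Z x).card
  · obtain ⟨-, h2⟩ := hla x hq
    obtain ⟨t, ht⟩ := h2 (SA x) (by omega)
    have h3 : g (true, x, t) ∈ la x t := by
      have h4 := hg2 (true, x, t)
      simpa using h4
    exact (Finset.disjoint_left.1 ht) h3 (hSA x t)
  · have hcard : (SB x).card ≤ (q + 1) * k := by
      have h5 : (SB x).card ≤ (Z x).card + (SB x \ Z x).card := by
        have h6 : SB x ⊆ Z x ∪ (SB x \ Z x) := by
          intro i hi
          by_cases hz : i ∈ Z x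
          · exact Finset.mem_union_left _ hz
          · exact Finset.mem_union_right _ (Finset.mem_sdiff.2 ⟨hi, hz⟩)
        exact (Finset.card_le_card h6).trans (Finset.card_union_le _ _)
      have h7 : (q + 1) * k = q * k + k := by ring
      omega
    obtain ⟨t, ht⟩ := hlb (SB x) hcard
    have h3 : g (false, x, t) ∈ lb t := by
      have h4 := hg2 (false, x, t)
      simpa using h4
    exact (Finset.disjoint_left.1 ht) h3 (hSB x t)

end Pool.Agent.H49.AK
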